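import Pool.Agent.L7h19.IT.Stm
import Pool.Agent.L7h65.IS.Exp2

/-!
# Project IT: tools for the expansions `S_EXP3`, `S_EXP4`
-/

set_option autoImplicit false
set_option linter.all false

namespace Pool.Agent.L7h65.IT

open Finset Polynomial Pool.Agent.W262.RK Pool.Agent.W108.RK Pool.Agent.W762.RK2 Pool.Agent.L7h19.RP
  Pool.Agent.L7h19.IS Pool.Agent.L7h19.IT Pool.Agent.L7h65.IS
open Pool.Agent.L7h19.RP.AT (gm)

variable {J : Type} [Fintype J] [DecidableEq J] {z y : ℕ}

/-- the label has the mark -/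
def tm (P : J → Bool) (x : Option J) : Bool := x.elim false P

lemma pP_Dl (P : J → Bool) (ξ : Pr z y → Option J) :
    pP P (Dl ξ) = nb fun p => tm P (ξ p) := by
  unfold pP Dl nb
  rw [Finset.prod_comm]
  refine Finset.prod_congr rfl fun p _ => ?_
  show (∏ i ∈ univ.filter (fun j => P j = true), if decide (ξ p = some i) = true then (p : ℕ) else 1) =
    if tm P (ξ p) = true then (p : ℕ) else 1
  cases h : ξ p with
  | none =>
    have e : tm P (none : Option J) = false := rfl
    rw [e]
    simp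
  | some j =>
    have e : tm P (some j) = P j := rfl
    rw [e]
    simp only [Option.some.injEq, decide_eq_true_eq]
    rw [Finset.prod_filter]
    by_cases hj : P j = true
    · rw [if_pos hj, Finset.prod_eq_single j]
      · simp [hj]
      · intro i _ hi
        rw [if_neg (show ¬ j = i from fun h => hi h.symm), ite_self]
      · intro h
        exact absurd (mem_univ _) h
    · rw [if_neg hj]
      refine Finset.prod_eq_one fun i _ => ?_
      by_cases hi : P i = true
      · rw [if_pos hi, if_neg]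
        intro h
        exact hj (h ▸ hi)
      · rw [if_neg hi]

lemma PW_Dl (iB iC : J → Bool) (ξ : Pr z y → Option J) :
    PW iB iC (Dl ξ) = (nb fun p => tm iB (ξ p) && tm iC (ξ p)).primeFactors := by
  have h0 : (univ.filter fun j : J => iB j = true ∧ iC j = true) =
      univ.filter fun j : J => (iB j && iC j) = true := by
    refine Finset.filter_congr fun j _ => ?_
    rw [Bool.and_eq_true_iff]
  have h1 : PW iB iC (Dl ξ) = (pP (fun j => iB j && iC j) (Dl ξ)).primeFactors := by
    unfold PW pP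
    rw [h0]
  rw [h1, pP_Dl]
  congr 2
  funext p
  cases ξ p <;> rfl

lemma sum_dv (a : Pr z y → Bool) (G : ℕ → ℝ) :
    ∑ d ∈ (nb a).divisors, G d =
      ∑ v : Pr z y → Bool, if ∀ p, v p = true → a p = true then G (nb v) else 0 := by
  rw [← Finset.sum_filter]
  refine Finset.sum_nbij' (fun d => fun p => decide ((p : ℕ) ∣ d)) (fun v => nb v) ?_ ?_ ?_ ?_ ?_
  · intro d hd
    rw [mem_filter]
    refine ⟨mem_univ _, fun p hp => ?_⟩
    exact dvd_of_dvd_nb (Nat.mem_divisors.1 hd).1 (of_decide_eq_true hp)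
  · intro v hv
    rw [Nat.mem_divisors]
    exact ⟨nb_dvd (mem_filter.1 hv).2, nb_ne_zero _⟩
  · intro d hd
    exact nb_eq ((Nat.mem_divisors.1 hd).1.trans (nb_dvd_PP a))
  · intro v _
    funext p
    rw [Bool.eq_iff_iff, decide_eq_true_iff, dvd_nb]
  · intro d hd
    rw [nb_eq ((Nat.mem_divisors.1 hd).1.trans (nb_dvd_PP a))]

lemma sum_pw (a : Pr z y → Bool) (G : Finset ℕ → ℝ) :
    ∑ E ∈ (nb a).primeFactors.powerset, G E =
      ∑ η : Pr z y → Bool, if ∀ p, η p = true → a p = true then G (Ts η) else 0 := by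
  have key : ∀ E : Finset ℕ, E ⊆ Ts a → Ts (fun p : Pr z y => decide ((p : ℕ) ∈ E)) = E := by
    intro E hE
    ext q
    constructor
    · intro hq
      unfold Ts at hq
      rw [Finset.mem_map] at hq
      obtain ⟨r, hr, hrq⟩ := hq
      have h1 := of_decide_eq_true (mem_filter.1 hr).2
      have h2 : (r : ℕ) = q := hrq
      rwa [h2] at h1
    · intro hq
      have h1 := hE hq
      unfold Ts at h1
      rw [Finset.mem_map] at h1
      obtain ⟨r, hr, hrq⟩ := h1
      have h2 : (r : ℕ) = q := hrq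
      rw [← h2]
      refine (mem_Ts _ r).2 (decide_eq_true ?_)
      rwa [h2]
  rw [nb_pf, ← Finset.sum_filter]
  refine Finset.sum_nbij' (fun E => fun p => decide ((p : ℕ) ∈ E)) (fun η => Ts η) ?_ ?_ ?_ ?_ ?_
  · intro E hE
    rw [mem_filter]
    refine ⟨mem_univ _, fun p hp => ?_⟩
    exact (mem_Ts a p).1 (Finset.mem_powerset.1 hE (of_decide_eq_true hp))
  · intro η hη
    rw [Finset.mem_powerset]
    intro q hq
    unfold Ts at hq
    rw [Finset.mem_map] at hq
    obtain ⟨r, hr, hrq⟩ := hq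
    have h2 : (r : ℕ) = q := hrq
    rw [← h2]
    exact (mem_Ts a r).2 ((mem_filter.1 hη).2 r (mem_filter.1 hr).2)
  · intro E hE
    exact key E (Finset.mem_powerset.1 hE)
  · intro η _
    funext p
    rw [Bool.eq_iff_iff, decide_eq_true_iff, mem_Ts]
  · intro E hE
    rw [key E (Finset.mem_powerset.1 hE)]

/-- the product of the symbols -/
noncomputable def DS (ε : ℕ → ℤ) (v x : Pr z y → Bool) : ℝ :=
  ∏ p : Pr z y, ∏ q : Pr z y, if (x p && v q) = true then (lam ε p q : ℝ) else 1

lemma prod_lam (ε : ℕ → ℤ) (v x : Pr z y → Bool) :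
    ∏ p ∈ (nb x).primeFactors, ∏ q ∈ (nb v).primeFactors, (lam ε p q : ℝ) = DS ε v x := by
  rw [prod_pf x fun p => ∏ q ∈ (nb v).primeFactors, (lam ε p q : ℝ)]
  unfold DS
  refine Finset.prod_congr rfl fun p _ => ?_
  rw [prod_pf v fun q => (lam ε p q : ℝ)]
  cases x p
  · simp
  · simp

/-- the product of the symbols outside the diagonal -/
noncomputable def OD (v x : Pr z y → Bool) : ℝ :=
  ∏ p : Pr z y, ∏ q : Pr z y, if (decide (q ≠ p) && (v q && x p)) = true then Jr ((q : ℕ) : ℤ) p else 1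

lemma DS_split (ε : ℕ → ℤ) (v x : Pr z y → Bool) :
    DS ε v x = (∏ p : Pr z y, if (v p && x p) = true then (ε p : ℝ) else 1) * OD v x := by
  unfold DS OD
  rw [← Finset.prod_mul_distrib]
  refine Finset.prod_congr rfl fun p _ => ?_
  have h1 : (if (v p && x p) = true then (ε p : ℝ) else 1) =
      ∏ q : Pr z y, if q = p then (if (v p && x p) = true then (ε p : ℝ) else 1) else 1 := by
    rw [Finset.prod_ite_eq' univ p fun _ => (if (v p && x p) = true then (ε p : ℝ) else 1)]
    simp
  rw [h1, ← Finset.prod_mul_distrib]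
  refine Finset.prod_congr rfl fun q _ => ?_
  by_cases hq : q = p
  · rw [if_pos hq, hq]
    unfold lam
    rw [if_pos rfl]
    cases v p <;> cases x p <;> simp
  · have hq' : ¬ (q : ℕ) = p := fun h => hq (Subtype.ext h)
    rw [if_neg hq, one_mul]
    unfold lam
    rw [if_neg hq']
    unfold Jr
    cases v q <;> cases x p <;> simp [hq]

lemma Jr_sq {p q : Pr z y} (h : q ≠ p) : Jr ((q : ℕ) : ℤ) p * Jr ((q : ℕ) : ℤ) p = 1 := by
  have h1 : jacobiSym ((q : ℕ) : ℤ) p = 1 ∨ jacobiSym ((q : ℕ) : ℤ) p = -1 := by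
    apply jacobiSym.eq_one_or_neg_one
    rw [Int.gcd_natCast_natCast]
    exact (Nat.coprime_primes (Pr_prime q) (Pr_prime p)).2 fun h' => h (Subtype.ext h')
  unfold Jr
  rcases h1 with h1 | h1 <;> rw [h1] <;> norm_num

lemma R3_eq (ε : ℕ → ℤ) (a b : Pr z y → Bool) :
    R3 ε (nb a) (nb b) = (∏ p : Pr z y, if b p = true then (1 / 2 : ℝ) else 1) *
      ∑ v : Pr z y → Bool, ∑ x : Pr z y → Bool,
        if ((∀ p, v p = true → a p = true) ∧ (∀ p, x p = true → b p = true)) ∧ (∃ p, x p = true) then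
          DS ε v x else 0 := by
  have h1 : ((2:ℝ) ^ (nb b).primeFactors.card)⁻¹ = ∏ p : Pr z y, if b p = true then (1 / 2 : ℝ) else 1 := by
    rw [← prod_pf b fun _ => (1 / 2 : ℝ), Finset.prod_const, ← inv_pow]
    norm_num
  unfold R3
  rw [div_eq_mul_inv, h1, mul_comm]
  congr 1
  rw [sum_dv a]
  refine Finset.sum_congr rfl fun v _ => ?_
  rw [← Finset.filter_ne', Finset.sum_filter, sum_dv b]
  by_cases hv : ∀ p, v p = true → a p = true
  · rw [if_pos hv]
    refine Finset.sum_congr rfl fun x _ => ?_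
    rw [prod_lam]
    by_cases hx : ∀ p, x p = true → b p = true
    · rw [if_pos hx]
      refine if_congr ?_ rfl rfl
      rw [nb_ne_one]
      exact ⟨fun h => ⟨⟨hv, hx⟩, h⟩, fun h => h.2⟩
    · rw [if_neg hx, if_neg fun h => hx h.1.2]
  · rw [if_neg hv]
    symm
    exact Finset.sum_eq_zero fun x _ => if_neg fun h => hv h.1.1

lemma sum_arr {α β : Type} [Fintype α] [Fintype β] (F : (Pr z y → α) → (Pr z y → β) → ℝ) :
    ∑ v, ∑ x, F v x = ∑ ρ : Pr z y → α × β, F (fun p => (ρ p).1) (fun p => (ρ p).2) := by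
  rw [← Fintype.sum_prod_type' (f := F)]
  refine (Fintype.sum_equiv (Equiv.arrowProdEquivProdArrow (Pr z y) (fun _ => α)
    (fun _ => β)) _ _ fun ρ => ?_).symm
  rfl

/-- the average over the signs of a product -/
lemma avg (a : Pr z y → Bool) (g : Bool → Pr z y → ℝ) :
    (1 / 2 : ℝ) ^ (nb a).primeFactors.card * ∑ η : Pr z y → Bool,
      (if ∀ p, η p = true → a p = true then ∏ p, g (η p) p else 0) =
      ∏ p, if a p = true then (g true p + g false p) / 2 else g false p := by
  have h1 : (1 / 2 : ℝ) ^ (nb a).primeFactors.card = ∏ p : Pr z y, if a p = true then (1 / 2 : ℝ) else 1 := by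
    rw [← prod_pf a fun _ => (1 / 2 : ℝ), Finset.prod_const]
  have h2 : ∀ η : Pr z y → Bool, (if ∀ p, η p = true → a p = true then ∏ p, g (η p) p else 0) =
      ∏ p, if (η p = true → a p = true) then g (η p) p else 0 := by
    intro η
    by_cases h : ∀ p, η p = true → a p = true
    · rw [if_pos h]
      exact Finset.prod_congr rfl fun p _ => (if_pos (h p)).symm
    · rw [if_neg h]
      simp only [not_forall] at h
      obtain ⟨p, hp1, hp2⟩ := h
      exact (Finset.prod_eq_zero (mem_univ p) (if_neg fun h => hp2 (h hp1))).symm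
  rw [h1, Finset.sum_congr rfl fun η _ => h2 η]
  have h3 : ∑ η : Pr z y → Bool, ∏ p, (if (η p = true → a p = true) then g (η p) p else 0) =
      ∏ p, ∑ b : Bool, if (b = true → a p = true) then g b p else 0 := by
    rw [Finset.prod_univ_sum, Fintype.piFinset_univ]
  rw [h3, ← Finset.prod_mul_distrib]
  refine Finset.prod_congr rfl fun p _ => ?_
  rw [Fintype.sum_bool]
  cases a p
  · simp
  · simp
    ring

end Pool.Agent.L7h65.IT
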